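import Pool.Agent.helper13.TG.RG1x

set_option linter.all false
set_option autoImplicit false

/-! # Module CT2 (MP_ce98d8_co) -/

namespace Pool.Agent.helper24.TG

open Finset Classical
open Pool.Agent.helper11.Tight (nb eo mem_nb)

theorem CT2_half {X : Type} [Fintype X] [DecidableEq X] (rel : X → X → Prop)
    (F : Finset (Finset X))
    (hF : ∀ S R : Finset X, (∀ x ∈ S, ∀ y ∈ R, ¬ rel x y) → ∃ W ∈ F, S ⊆ W ∨ R ⊆ W)
    {C : ℕ} (I : Finset (Fin C)) (S : Fin C → Finset X)
    (h : ∀ j ∈ I, ∀ j' ∈ I, j ≠ j' → ∀ x ∈ S j, ∀ y ∈ S j', ¬ rel x y) :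
    ∃ W1 ∈ F, ∃ W2 ∈ F, ∃ m : ℕ, ∀ j ∈ I, j.val ≠ m → S j ⊆ W1 ∪ W2 := by
  by_cases hall : ∃ W ∈ F, ∀ j ∈ I, S j ⊆ W
  · obtain ⟨W, hW, hall⟩ := hall
    exact ⟨W, hW, W, hW, 0, fun j hj _ => (hall j hj).trans Finset.subset_union_left⟩
  · have hbad : ∃ n : ℕ, ¬ ∃ W ∈ F, (I.filter (fun j => j.val < n)).biUnion S ⊆ W := by
      refine ⟨C, fun hW => hall ?_⟩
      obtain ⟨W, hW, hsub⟩ := hW
      refine ⟨W, hW, fun j hj => ?_⟩
      refine subset_trans ?_ hsub
      intro x hx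
      exact Finset.mem_biUnion.mpr ⟨j, Finset.mem_filter.mpr ⟨hj, j.isLt⟩, hx⟩
    have hn := Nat.find_spec hbad
    have hmin := fun m => @Nat.find_min _ _ hbad m
    generalize Nat.find hbad = n at hn hmin
    obtain ⟨W0, hW0, -⟩ := hF ∅ ∅ (by simp)
    rcases n with _ | m
    · exfalso
      apply hn
      exact ⟨W0, hW0, by simp⟩
    · have h1 := hmin m (Nat.lt_succ_self m)
      rw [not_not] at h1
      obtain ⟨W2, hW2, hsub2⟩ := h1
      obtain ⟨W1, hW1, hsub1⟩ := hF ((I.filter (fun j => j.val < m + 1)).biUnion S)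
        ((I.filter (fun j => m + 1 ≤ j.val)).biUnion S) (by
          intro x hx y hy
          obtain ⟨i, hi, hxi⟩ := Finset.mem_biUnion.mp hx
          obtain ⟨i', hi', hyi⟩ := Finset.mem_biUnion.mp hy
          obtain ⟨hi1, hi2⟩ := Finset.mem_filter.mp hi
          obtain ⟨hi3, hi4⟩ := Finset.mem_filter.mp hi'
          refine h i hi1 i' hi3 ?_ x hxi y hyi
          rintro rfl
          omega)
      have hsub1' : (I.filter (fun j => m + 1 ≤ j.val)).biUnion S ⊆ W1 := by
        rcases hsub1 with hs | hs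
        · exact absurd ⟨W1, hW1, hs⟩ hn
        · exact hs
      refine ⟨W1, hW1, W2, hW2, m, ?_⟩
      intro j hj hjm x hx
      rw [Finset.mem_union]
      rcases Nat.lt_or_gt_of_ne hjm with hlt | hlt
      · right
        exact hsub2 (Finset.mem_biUnion.mpr ⟨j, Finset.mem_filter.mpr ⟨hj, hlt⟩, hx⟩)
      · left
        exact hsub1' (Finset.mem_biUnion.mpr ⟨j, Finset.mem_filter.mpr ⟨hj, hlt⟩, hx⟩)

theorem CT2_fam (hCT1 : CT1_stmt) {p : Par} {P O A : Type} [Fintype P] [DecidableEq P] [Fintype O]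
    [DecidableEq O] [Fintype A] [DecidableEq A] [AddCommGroup A] (H : Host P O p.q) (v : O → A)
    (hA : Fintype.card A = p.B) (h6 : H6 p H v) (i : Bool) :
    ∃ F : Finset (Finset (P × A)), F.card ≤ 2 ^ (p.Lam * p.fH + 1) ∧
      (∀ W ∈ F, W.card ≤ 2 * p.W0) ∧
      ∀ S R : Finset (P × A), (∀ x ∈ S, ∀ y ∈ R, ¬ (y ∈ Nb H v i x)) →
        ∃ W ∈ F, S ⊆ W ∨ R ⊆ W := by
  have hc0 := RG1x_c_pos p
  have hB := RG1x_B_pos p
  have hq := RG1x_q_pos p
  have hLam := p.hLam
  have hX := RG1x_card (A := A) H hA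
  have hsq : 1 ≤ p.sq := by
    rcases Nat.eq_zero_or_pos p.sq with h | h
    · have := p.hq
      rw [h] at this
      simp at this
      omega
    · exact h
  have hW0 : p.fH ≤ p.W0 := by
    unfold Par.fH Par.W0
    have h1 := p.hLog
    have h2 : 10 ^ 5 * p.Lam + 1 ≤ p.c ^ 2 := by nlinarith
    have h3 : 1 ≤ p.B * p.q := Nat.mul_pos hB hq
    calc 10 ^ 5 * p.B * p.q * p.Lam + 1 ≤ 10 ^ 5 * p.B * p.q * p.Lam + p.B * p.q := by omega
      _ = (p.B * p.q) * (10 ^ 5 * p.Lam + 1) := by ring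
      _ ≤ (p.B * p.q) * p.c ^ 2 := Nat.mul_le_mul_left _ h2
      _ = p.c ^ 2 * p.B * p.q * 1 := by ring
      _ ≤ p.c ^ 2 * p.B * p.q * p.sq := Nat.mul_le_mul_left _ hsq
  have hfH : 1 ≤ p.fH := by
    unfold Par.fH
    omega
  have hD : 1 ≤ 10 ^ 5 * p.B * p.q := Nat.mul_pos (Nat.mul_pos (by norm_num) hB) hq
  have hlt : Fintype.card (P × A) * (10 ^ 5 * p.B * p.q - 1) ^ p.fH <
      p.W0 * (10 ^ 5 * p.B * p.q) ^ p.fH := by
    have h2 : (10 ^ 5 * p.B * p.q - 1) ^ p.fH * 2 ^ p.Lam < (10 ^ 5 * p.B * p.q) ^ p.fH := by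
      apply sub_one_pow_lt _ _ _ hD hLam
      unfold Par.fH
      omega
    calc Fintype.card (P × A) * (10 ^ 5 * p.B * p.q - 1) ^ p.fH
        ≤ 2 ^ p.Lam * (10 ^ 5 * p.B * p.q - 1) ^ p.fH := Nat.mul_le_mul_right _ hX
      _ = (10 ^ 5 * p.B * p.q - 1) ^ p.fH * 2 ^ p.Lam := mul_comm _ _
      _ < (10 ^ 5 * p.B * p.q) ^ p.fH := h2
      _ ≤ p.W0 * (10 ^ 5 * p.B * p.q) ^ p.fH := Nat.le_mul_of_pos_left _ (by omega)
  obtain ⟨F, hF1, hF2, hF3⟩ := hCT1 (P × A) (fun x y => y ∈ Nb H v i x) p.W0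
    (10 ^ 5 * p.B * p.q) p.fH (by omega) hD (fun S W hS hW => by
      have h := h6 i S W hS hW
      unfold eH at h
      convert h) hlt
  refine ⟨F, ?_, ?_, hF3⟩
  · refine hF1.trans ?_
    rw [pow_succ, mul_comm, pow_mul]
    apply Nat.mul_le_mul_right
    apply Nat.pow_le_pow_left
    rw [Fintype.card_prod, H.card_P, hA]
    have h1 := p.s1
    have h2 : 2 ≤ p.C := by
      obtain ⟨a, ha⟩ := p.hCe
      have := RG1x_C_pos p
      omega
    have h3 : 8 * (p.B * p.q ^ 2) ≤ 2 ^ p.Lam := by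
      calc 8 * (p.B * p.q ^ 2) = 4 * p.B * p.q ^ 2 * 2 := by ring
        _ ≤ 4 * p.B * p.q ^ 2 * p.C := Nat.mul_le_mul_left _ h2
        _ ≤ _ := h1
    have h5 : p.q ^ 2 + p.q + 1 ≤ 4 * p.q ^ 2 := by nlinarith
    have h6 : 1 ≤ p.B * p.q ^ 2 := Nat.mul_pos hB (pow_pos hq 2)
    calc (p.q ^ 2 + p.q + 1) * p.B + 1 ≤ 4 * p.q ^ 2 * p.B + p.B * p.q ^ 2 :=
          Nat.add_le_add (Nat.mul_le_mul_right _ h5) h6
      _ ≤ 8 * (p.B * p.q ^ 2) := by nlinarith
      _ ≤ _ := h3
  · intro W hW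
    have := hF2 W hW
    omega

theorem CT2 (hCT1 : CT1_stmt) : CT2_stmt := by
  intro p P O A _ _ _ _ _ _ _ H v hA h6
  obtain ⟨F0, hF01, hF02, hF03⟩ := CT2_fam hCT1 H v hA h6 false
  obtain ⟨F1, hF11, hF12, hF13⟩ := CT2_fam hCT1 H v hA h6 true
  have hB := RG1x_B_pos p
  have hq := RG1x_q_pos p
  have hLam := p.hLam
  have hC := RG1x_C_pos p
  have hcard : (F0 ∪ F1).card ≤ 2 ^ (p.Lam * p.fH + 2) := by
    refine (Finset.card_union_le _ _).trans ?_
    rw [show p.Lam * p.fH + 2 = (p.Lam * p.fH + 1) + 1 by ring, pow_succ]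
    omega
  have hsize : ∀ W ∈ F0 ∪ F1, W.card ≤ 2 * p.W0 := by
    intro W hW
    rcases Finset.mem_union.mp hW with h | h
    · exact hF02 W h
    · exact hF12 W h
  refine ⟨(Fintype.piFinset (fun _ : Fin 5 => F0 ∪ F1)).image
    (fun f => XA A H ∩ Finset.univ.biUnion f), ?_, ?_, ?_⟩
  · refine Finset.card_image_le.trans ?_
    rw [Fintype.card_piFinset]
    simp only [Finset.prod_const, Finset.card_univ, Fintype.card_fin]
    refine (Nat.pow_le_pow_left hcard 5).trans ?_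
    rw [← pow_mul]
    apply Nat.pow_le_pow_right (by norm_num)
    have h1 : 10 ≤ p.Lam * p.fH := by
      have : 10 ≤ p.fH := by
        unfold Par.fH
        have : 1 ≤ p.B * p.q * p.Lam := Nat.mul_pos (Nat.mul_pos hB hq) hLam
        calc 10 ≤ 10 ^ 5 * (p.B * p.q * p.Lam) := by omega
          _ ≤ 10 ^ 5 * p.B * p.q * p.Lam + 1 := by
            rw [← mul_assoc, ← mul_assoc]
            omega
      nlinarith
    calc (p.Lam * p.fH + 2) * 5 = 5 * (p.Lam * p.fH) + 10 := by ring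
      _ ≤ 5 * (p.Lam * p.fH) + p.Lam * p.fH := by omega
      _ = 6 * p.Lam * p.fH := by ring
  · intro W hW
    obtain ⟨f, hf, rfl⟩ := Finset.mem_image.mp hW
    refine ⟨Finset.inter_subset_left, ?_⟩
    refine (Finset.card_le_card Finset.inter_subset_right).trans
      (Finset.card_biUnion_le.trans ?_)
    refine (Finset.sum_le_card_nsmul _ _ (2 * p.W0) fun i _ =>
      hsize _ (Fintype.mem_piFinset.mp hf i)).trans ?_
    simp only [Finset.card_univ, Fintype.card_fin, smul_eq_mul]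
    omega
  · intro S hS hcross
    -- the two halves
    have hhalf : ∀ b : Bool, ∃ W1 ∈ F0, ∃ W2 ∈ F0, ∃ m : ℕ, ∀ j : Fin p.C, p.hf j = b →
        j.val ≠ m → S j ⊆ W1 ∪ W2 := by
      intro b
      obtain ⟨W1, hW1, W2, hW2, m, hm⟩ := CT2_half (fun x y => y ∈ Nb H v false x) F0 hF03
        (Finset.univ.filter (fun j => p.hf j = b)) S (by
          intro j hj j' hj' hne x hx y hy
          have := hcross j j' hne x hx y hy
          rw [(Finset.mem_filter.mp hj).2, (Finset.mem_filter.mp hj').2] at this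
          simpa using this)
      exact ⟨W1, hW1, W2, hW2, m, fun j hj => hm j (Finset.mem_filter.mpr
        ⟨Finset.mem_univ _, hj⟩)⟩
    obtain ⟨W1, hW1, W2, hW2, m, hm⟩ := hhalf false
    obtain ⟨W3, hW3, W4, hW4, m', hm'⟩ := hhalf true
    -- the last two slices
    obtain ⟨W5, hW5, hW5'⟩ := hF13
      ((Finset.univ.filter (fun j : Fin p.C => p.hf j = false ∧ j.val = m)).biUnion S)
      ((Finset.univ.filter (fun j : Fin p.C => p.hf j = true ∧ j.val = m')).biUnion S) (by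
        intro x hx y hy
        obtain ⟨i, hi, hxi⟩ := Finset.mem_biUnion.mp hx
        obtain ⟨i', hi', hyi⟩ := Finset.mem_biUnion.mp hy
        have hi1 := (Finset.mem_filter.mp hi).2.1
        have hi2 := (Finset.mem_filter.mp hi').2.1
        have hne : i ≠ i' := by
          rintro rfl
          rw [hi1] at hi2
          exact absurd hi2 (by decide)
        have := hcross i i' hne x hxi y hyi
        rw [hi1, hi2] at this
        simpa using this)
    -- the set
    let f : Fin 5 → Finset (P × A) := ![W1, W2, W3, W4, W5]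
    have hfm : f ∈ Fintype.piFinset (fun _ : Fin 5 => F0 ∪ F1) := by
      rw [Fintype.mem_piFinset]
      intro i
      fin_cases i
      · exact Finset.mem_union_left _ hW1
      · exact Finset.mem_union_left _ hW2
      · exact Finset.mem_union_left _ hW3
      · exact Finset.mem_union_left _ hW4
      · exact Finset.mem_union_right _ hW5
    have hsub : ∀ i : Fin 5, f i ⊆ Finset.univ.biUnion f := fun i x hx =>
      Finset.mem_biUnion.mpr ⟨i, Finset.mem_univ _, hx⟩
    have key : ∀ n : ℕ, (∀ j : Fin p.C, j.val ≠ n → S j ⊆ Finset.univ.biUnion f) →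
        ∃ c0, ∃ W ∈ (Fintype.piFinset (fun _ : Fin 5 => F0 ∪ F1)).image
          (fun f => XA A H ∩ Finset.univ.biUnion f), ∀ j, j ≠ c0 → S j ⊆ W := by
      intro n hn
      refine ⟨if h : n < p.C then ⟨n, h⟩ else ⟨0, hC⟩, _, Finset.mem_image_of_mem _ hfm, ?_⟩
      intro j hj
      refine Finset.subset_inter (hS j) (hn j ?_)
      intro hjn
      apply hj
      rw [dif_pos (by rw [← hjn]; exact j.isLt)]
      exact Fin.ext hjn
    have h1 : ∀ j : Fin p.C, p.hf j = false → j.val ≠ m → S j ⊆ Finset.univ.biUnion f := by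
      intro j hj hjm
      exact (hm j hj hjm).trans (Finset.union_subset (hsub 0) (hsub 1))
    have h2 : ∀ j : Fin p.C, p.hf j = true → j.val ≠ m' → S j ⊆ Finset.univ.biUnion f := by
      intro j hj hjm
      exact (hm' j hj hjm).trans (Finset.union_subset (hsub 2) (hsub 3))
    rcases hW5' with hW5' | hW5'
    · refine key m' fun j hj => ?_
      cases hb : p.hf j with
      | false =>
        by_cases hjm : j.val = m
        · refine subset_trans ?_ (hW5'.trans (hsub 4))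
          intro x hx
          exact Finset.mem_biUnion.mpr ⟨j, Finset.mem_filter.mpr
            ⟨Finset.mem_univ _, hb, hjm⟩, hx⟩
        · exact h1 j hb hjm
      | true => exact h2 j hb hj
    · refine key m fun j hj => ?_
      cases hb : p.hf j with
      | false => exact h1 j hb hj
      | true =>
        by_cases hjm : j.val = m'
        · refine subset_trans ?_ (hW5'.trans (hsub 4))
          intro x hx
          exact Finset.mem_biUnion.mpr ⟨j, Finset.mem_filter.mpr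
            ⟨Finset.mem_univ _, hb, hjm⟩, hx⟩
        · exact h2 j hb hjm

end Pool.Agent.helper24.TG
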