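import Pool.Agent.helper24.TG.S3

set_option linter.all false
set_option autoImplicit false

/-! # Module RG1x (MP_ce98d8_co) -/

namespace Pool.Agent.helper24.TG

open Finset Classical
open Pool.Agent.helper11.Tight (nb eo mem_nb)

theorem RG1x_c_pos (p : Par) : 0 < p.c := by
  have h1 := p.hLog
  have h2 := p.hLam
  omega

theorem RG1x_C_pos (p : Par) : 0 < p.C := by
  rcases Nat.eq_zero_or_pos p.C with h | h
  · exfalso
    have h1 := p.hC1
    rw [h, zero_mul] at h1
    have h2 := p.hd
    have h3 := RG1x_c_pos p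
    have h4 : 0 < p.q := by
      rw [p.hq]
      obtain ⟨k, hk⟩ := p.hsq
      rw [hk]
      positivity
    have : 0 < p.c ^ 3 * p.q * p.d := by
      have : 0 < p.d := by omega
      positivity
    omega
  · exact h

theorem RG1x_q_pos (p : Par) : 0 < p.q := by
  rw [p.hq]
  obtain ⟨k, hk⟩ := p.hsq
  rw [hk]
  positivity

theorem RG1x_B_pos (p : Par) : 0 < p.B := by
  obtain ⟨k, hk⟩ := p.hBp
  rw [hk]
  positivity

theorem RG1x_Bq (p : Par) : 4 * (p.B * p.q ^ 2) ≤ 2 ^ p.Lam := by
  have h1 := p.s1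
  have h2 := RG1x_C_pos p
  calc 4 * (p.B * p.q ^ 2) = 4 * p.B * p.q ^ 2 * 1 := by ring
    _ ≤ 4 * p.B * p.q ^ 2 * p.C := Nat.mul_le_mul_left _ h2
    _ ≤ _ := h1

theorem RG1x_c_le (p : Par) : p.c ≤ 2 ^ p.Lam := by
  have h1 := RG1x_Bq p
  have h2 := p.N7
  have h3 : p.c ≤ p.c ^ 200 := Nat.le_self_pow (by norm_num) _
  have h4 : 1 ≤ p.q ^ 2 := Nat.one_le_pow _ _ (RG1x_q_pos p)
  nlinarith

/-- the number of lifted points -/
theorem RG1x_card {p : Par} {P O A : Type} [Fintype P] [DecidableEq P] [Fintype O]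
    [DecidableEq O] [Fintype A] [DecidableEq A] [AddCommGroup A] (H : Host P O p.q)
    (hA : Fintype.card A = p.B) : Fintype.card (P × A) ≤ 2 ^ p.Lam := by
  rw [Fintype.card_prod, H.card_P, hA]
  have h1 := RG1x_Bq p
  have h4 : 1 ≤ p.q := RG1x_q_pos p
  have h5 : p.q ^ 2 + p.q + 1 ≤ 4 * p.q ^ 2 := by nlinarith
  calc (p.q ^ 2 + p.q + 1) * p.B ≤ 4 * p.q ^ 2 * p.B := Nat.mul_le_mul_right _ h5
    _ = 4 * (p.B * p.q ^ 2) := by ring
    _ ≤ _ := h1

theorem RG1x (hCT4 : CT4_stmt) : RG1x_stmt := by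
  intro p P O A V _ _ _ _ _ _ _ _ _ H v T MM hA hT h1 W hW
  have hc0 := RG1x_c_pos p
  have hcL := RG1x_c_le p
  have hX := RG1x_card (A := A) H hA
  have hV : Fintype.card V = p.N := hT.card_V
  have hd := p.hd
  have htau := p.htau
  have hLa := p.hLa
  have hLam := p.hLam
  have hNL := p.s2
  have hlt : p.c * Fintype.card V * (p.c * p.La - 1) ^ p.fb < (p.c * p.La) ^ p.fb := by
    have h2 : (p.c * p.La - 1) ^ p.fb * 2 ^ (2 * p.Lam) < (p.c * p.La) ^ p.fb := by
      apply sub_one_pow_lt
      · exact Nat.one_le_iff_ne_zero.mpr (Nat.mul_ne_zero hc0.ne' (by omega))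
      · omega
      · apply le_of_eq
        unfold Par.fb
        ring
    refine lt_of_le_of_lt ?_ h2
    rw [hV, mul_comm]
    apply Nat.mul_le_mul_left
    calc p.c * p.N ≤ 2 ^ p.Lam * 2 ^ p.Lam := Nat.mul_le_mul hcL hNL
      _ = 2 ^ (2 * p.Lam) := by rw [← pow_add, two_mul]
  obtain ⟨F, hF1, hF2, hF3⟩ := hCT4 (P × A) V T (p.tau * p.d) p.La p.c p.fb
    (Nat.one_le_iff_ne_zero.mpr (Nat.mul_ne_zero (by omega) (by omega))) hLa hc0 hT.sat hlt
  let G : Finset ((P × A) × V) × Finset V → Finset ((P × A) × V) := fun f =>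
    Finset.univ.filter (fun e => e.1 ∈ W ∧ (e.2 ∈ f.2 ∨
      (p.c ≤ (f.1.filter (fun e' => T.Adj e'.2 e.2)).card ∧
        ∀ e' ∈ f.1, T.Adj e'.2 e.2 → col H v e.1 e'.1)))
  refine ⟨(F.filter (fun f => ∀ e ∈ f.1, ∀ e' ∈ f.1, e.1 = e'.1 → e = e')).image G, ?_, ?_, ?_⟩
  · refine (Finset.card_image_le.trans (Finset.card_filter_le _ _)).trans (hF1.trans ?_)
    rw [pow_mul]
    apply Nat.pow_le_pow_left
    rw [hV]
    have h2 : 1 ≤ 2 ^ p.Lam / 2 := by
      obtain ⟨k, hk⟩ : ∃ k, p.Lam = k + 1 := ⟨p.Lam - 1, by omega⟩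
      rw [hk, pow_succ, Nat.mul_div_cancel _ (by norm_num)]
      exact Nat.one_le_two_pow
    have h3 : 2 ≤ 2 ^ p.Lam := by omega
    have h4 : 2 ^ (3 * p.Lam) = 2 ^ p.Lam * 2 ^ p.Lam * 2 ^ p.Lam := by
      rw [← pow_add, ← pow_add]
      congr 1
      ring
    rw [h4]
    generalize 2 ^ p.Lam = L at *
    calc 1 + Fintype.card (P × A) * (p.N + 1) ≤ 1 + L * (L + 1) := by gcongr
      _ ≤ L * L * L := by nlinarith
  · intro g hg
    obtain ⟨f, hf, rfl⟩ := Finset.mem_image.mp hg
    obtain ⟨hf, hinj⟩ := Finset.mem_filter.mp hf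
    refine ⟨?_, ?_⟩
    · -- the good labels
      have hsub : G f ⊆ (W ×ˢ f.2) ∪ (Finset.univ.filter (fun u : V =>
          p.c ≤ (f.1.filter (fun e' => T.Adj e'.2 u)).card)).biUnion (fun u =>
            (Finset.univ.filter (fun x : P × A => ∀ e' ∈ f.1, T.Adj e'.2 u →
              col H v x e'.1)).image (fun x => (x, u))) := by
        intro e he
        obtain ⟨-, h1, h2⟩ := Finset.mem_filter.mp he
        rw [Finset.mem_union]
        rcases h2 with h2 | ⟨h2, h3⟩
        · left
          exact Finset.mem_product.mpr ⟨h1, h2⟩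
        · right
          refine Finset.mem_biUnion.mpr ⟨e.2, Finset.mem_filter.mpr ⟨Finset.mem_univ _, h2⟩, ?_⟩
          exact Finset.mem_image.mpr ⟨e.1, Finset.mem_filter.mpr ⟨Finset.mem_univ _, h3⟩, rfl⟩
      refine (Finset.card_le_card hsub).trans ((Finset.card_union_le _ _).trans ?_)
      apply Nat.add_le_add
      · rw [Finset.card_product, mul_comm]
        exact Nat.mul_le_mul_right _ (hF2 f hf).2
      · refine Finset.card_biUnion_le.trans ?_
        have hb : ∀ u ∈ Finset.univ.filter (fun u : V =>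
            p.c ≤ (f.1.filter (fun e' => T.Adj e'.2 u)).card),
            ((Finset.univ.filter (fun x : P × A => ∀ e' ∈ f.1, T.Adj e'.2 u →
              col H v x e'.1)).image (fun x => (x, u))).card ≤ 2 * p.c ^ 2 * p.q := by
          intro u hu
          have hu := (Finset.mem_filter.mp hu).2
          refine Finset.card_image_le.trans ?_
          obtain ⟨R, hR1, hR2⟩ := Finset.exists_subset_card_eq hu
          have hinjR : Set.InjOn (fun e : (P × A) × V => e.1) (R : Set ((P × A) × V)) := by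
            intro e he e' he' h
            exact hinj e (Finset.mem_filter.mp (hR1 he)).1 e' (Finset.mem_filter.mp (hR1 he')).1 h
          have hQ : (R.image (fun e => e.1)).card = p.c := by
            rw [Finset.card_image_of_injOn hinjR, hR2]
          refine le_trans (Finset.card_le_card ?_) (h1 _ hQ)
          intro x hx
          have hx := (Finset.mem_filter.mp hx).2
          refine Finset.mem_filter.mpr ⟨Finset.mem_univ _, ?_⟩
          intro y hy
          obtain ⟨e, he, rfl⟩ := Finset.mem_image.mp hy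
          obtain ⟨he1, he2⟩ := Finset.mem_filter.mp (hR1 he)
          rw [mem_Gam]
          exact hx e he1 he2
        refine (Finset.sum_le_card_nsmul _ _ _ hb).trans ?_
        rw [smul_eq_mul, mul_comm]
        apply Nat.mul_le_mul_left
        refine (Finset.card_le_univ _).trans ?_
        rw [hV]
    · intro e he
      exact (Finset.mem_filter.mp he).2.1
  · intro φ S hSW hdist hind
    obtain ⟨f, hf, hf1, hf2⟩ := hF3 (S.image (fun x => (x, φ x.1)))
    have hmem : ∀ e ∈ f.1, e.1 ∈ S ∧ e.2 = φ e.1.1 := by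
      intro e he
      obtain ⟨x, hx, hxe⟩ := Finset.mem_image.mp (hf1 he)
      rw [← hxe]
      exact ⟨hx, rfl⟩
    refine ⟨G f, Finset.mem_image_of_mem _ (Finset.mem_filter.mpr ⟨hf, ?_⟩), ?_⟩
    · intro e he e' he' h
      refine Prod.ext h ?_
      rw [(hmem e he).2, (hmem e' he').2, h]
    · have hcov : S ⊆ (f.1.image (fun e => e.1)) ∪ S.filter (fun x => (x, φ x.1) ∈ G f) := by
        intro x hx
        rw [Finset.mem_union]
        by_cases hxf : (x, φ x.1) ∈ f.1
        · left
          exact Finset.mem_image.mpr ⟨_, hxf, rfl⟩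
        · right
          refine Finset.mem_filter.mpr ⟨hx, Finset.mem_filter.mpr ⟨Finset.mem_univ _, hSW hx, ?_⟩⟩
          have h3 := hf2 (x, φ x.1) (Finset.mem_sdiff.mpr
            ⟨Finset.mem_image.mpr ⟨x, hx, rfl⟩, hxf⟩)
          rcases h3 with h3 | h3
          · left
            exact h3
          · right
            refine ⟨h3, ?_⟩
            intro e' he' hadj
            apply col_symm
            refine hind e'.1 (hmem e' he').1 x hx ?_
            rw [← (hmem e' he').2]
            exact hadj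
      refine (Finset.card_le_card hcov).trans ((Finset.card_union_le _ _).trans ?_)
      exact Nat.add_le_add_right (Finset.card_image_le.trans (hF2 f hf).1) _

end Pool.Agent.helper24.TG
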