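import Pool.Agent.helper24.TG.S4
import Pool.Agent.helper13.TG.RG1x

set_option linter.all false
set_option autoImplicit false

/-! # Module Q4f (MP_ce98d8_co) -/

namespace Pool.Agent.helper24.TG

open Finset Classical
open Pool.Agent.helper11.Tight (nb eo mem_nb)

/-- the numeric inequality -/
theorem Q4f_num (p : Par) (n k0 b : ℕ) (hk0 : 1 ≤ k0) (hn : n ≤ 64 * p.c ^ 3 * p.B * k0)
    (hb : p.q * p.d < 64 * p.N * b) :
    p.C.choose b * 2 ^ ((p.Lam + 1) + ((p.Lam + 1) * n + 4 * p.Lam)) ≤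
      ((p.c ^ 8 * p.B ^ 2) ^ k0) ^ b := by
  have hc0 := RG1x_c_pos p
  have hB := RG1x_B_pos p
  have hq := RG1x_q_pos p
  have hLam := p.hLam
  have hLog := p.hLog
  have hN := p.hN
  have hc6 : 10 ^ 6 ≤ p.c := by omega
  have hb0 : 1 ≤ b := by
    rcases Nat.eq_zero_or_pos b with h | h
    · rw [h] at hb
      omega
    · exact h
  -- C is at most 128 c^3 b
  have hC : 3 * p.C ≤ 384 * p.c ^ 3 * b := by
    have h1 : p.C * p.N ≤ 128 * p.c ^ 3 * b * p.N := by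
      calc p.C * p.N ≤ 2 * p.c ^ 3 * p.q * p.d := p.hC2
        _ = 2 * p.c ^ 3 * (p.q * p.d) := by ring
        _ ≤ 2 * p.c ^ 3 * (64 * p.N * b) := Nat.mul_le_mul_left _ hb.le
        _ = 128 * p.c ^ 3 * b * p.N := by ring
    have h2 : p.C ≤ 128 * p.c ^ 3 * b := Nat.le_of_mul_le_mul_right h1 hN
    calc 3 * p.C ≤ 3 * (128 * p.c ^ 3 * b) := Nat.mul_le_mul_left _ h2
      _ = 384 * p.c ^ 3 * b := by ring
  have hch : p.C.choose b ≤ (384 * p.c ^ 3) ^ b := by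
    have h1 := choose_mul_pow_le p.C b
    have h2 : (3 * p.C) ^ b ≤ (384 * p.c ^ 3) ^ b * b ^ b := by
      rw [← mul_pow]
      exact Nat.pow_le_pow_left hC b
    exact Nat.le_of_mul_le_mul_right (h1.trans h2) (by positivity)
  have h384 : 384 * p.c ^ 3 ≤ p.c ^ 4 := by
    rw [pow_succ p.c 3, mul_comm]
    exact Nat.mul_le_mul_left _ (by omega)
  -- b is large
  have hbig : (p.c * p.B) ^ 100 ≤ 64 * b := by
    have h1 : (p.c * p.B) ^ 100 * p.N ≤ 64 * b * p.N := by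
      have h2 := p.N2
      have h3 : (p.c * p.B) ^ 100 * p.N ≤ (p.c * p.B) ^ 100 * p.L * (p.K + 1) * p.N := by
        have h4 : 1 ≤ p.L * (p.K + 1) := Nat.mul_pos p.hL (Nat.succ_pos _)
        calc (p.c * p.B) ^ 100 * p.N = (p.c * p.B) ^ 100 * p.N * 1 := by ring
          _ ≤ (p.c * p.B) ^ 100 * p.N * (p.L * (p.K + 1)) := Nat.mul_le_mul_left _ h4
          _ = _ := by ring
      calc (p.c * p.B) ^ 100 * p.N ≤ p.q * p.d := h3.trans h2
        _ ≤ 64 * p.N * b := hb.le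
        _ = 64 * b * p.N := by ring
    exact Nat.le_of_mul_le_mul_right h1 hN
  have hE : (p.Lam + 1) + ((p.Lam + 1) * n + 4 * p.Lam) ≤ k0 * b := by
    have h1 : 64 * ((p.Lam + 1) + ((p.Lam + 1) * n + 4 * p.Lam)) ≤ p.c ^ 5 * p.B * k0 := by
      have h2 : 1 ≤ p.c ^ 3 * p.B * k0 :=
        Nat.mul_pos (Nat.mul_pos (pow_pos hc0 3) hB) hk0
      calc 64 * ((p.Lam + 1) + ((p.Lam + 1) * n + 4 * p.Lam))
          ≤ 64 * (p.c + (p.c * (64 * p.c ^ 3 * p.B * k0) + p.c)) := by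
            gcongr
            · omega
            · omega
            · omega
        _ = 64 * p.c * (64 * (p.c ^ 3 * p.B * k0) + 2) := by ring
        _ ≤ 64 * p.c * (66 * (p.c ^ 3 * p.B * k0)) := by
            gcongr
            omega
        _ = 4224 * (p.c ^ 4 * p.B * k0) := by ring
        _ ≤ p.c * (p.c ^ 4 * p.B * k0) := Nat.mul_le_mul_right _ (by omega)
        _ = p.c ^ 5 * p.B * k0 := by ring
    have h3 : p.c ^ 5 * p.B * k0 ≤ 64 * (k0 * b) := by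
      have h4 : p.c ^ 5 * p.B ≤ (p.c * p.B) ^ 100 := by
        calc p.c ^ 5 * p.B ≤ p.c ^ 5 * p.B ^ 5 :=
              Nat.mul_le_mul_left _ (Nat.le_self_pow (by norm_num) _)
          _ = (p.c * p.B) ^ 5 := by rw [mul_pow]
          _ ≤ (p.c * p.B) ^ 100 :=
              Nat.pow_le_pow_right (Nat.mul_pos hc0 hB) (by norm_num)
      calc p.c ^ 5 * p.B * k0 ≤ (64 * b) * k0 := Nat.mul_le_mul_right _ (h4.trans hbig)
        _ = 64 * (k0 * b) := by ring
    omega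
  calc p.C.choose b * 2 ^ ((p.Lam + 1) + ((p.Lam + 1) * n + 4 * p.Lam))
      ≤ (384 * p.c ^ 3) ^ b * 2 ^ (k0 * b) :=
        Nat.mul_le_mul hch (Nat.pow_le_pow_right (by norm_num) hE)
    _ ≤ (p.c ^ 4) ^ b * 2 ^ (k0 * b) :=
        Nat.mul_le_mul_right _ (Nat.pow_le_pow_left h384 b)
    _ ≤ (p.c ^ 4) ^ (k0 * b) * (p.c ^ 4 * p.B ^ 2) ^ (k0 * b) := by
        apply Nat.mul_le_mul
        · exact Nat.pow_le_pow_right (pow_pos hc0 4) (Nat.le_mul_of_pos_left _ hk0)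
        · apply Nat.pow_le_pow_left
          have h5 : 1 ≤ p.B ^ 2 := Nat.one_le_pow _ _ hB
          have h6 : 2 ≤ p.c ^ 4 := le_trans (by omega) (Nat.le_self_pow (n := 4) (by norm_num) p.c)
          calc 2 = 2 * 1 := rfl
            _ ≤ p.c ^ 4 * p.B ^ 2 := Nat.mul_le_mul h6 h5
    _ = ((p.c ^ 8 * p.B ^ 2) ^ k0) ^ b := by
        rw [← mul_pow, ← pow_mul]
        congr 1
        ring

theorem Q4f (hQB4 : QB4_stmt) : Q4f_stmt := by
  intro p P O A V _ _ _ _ _ _ _ _ _ H v T MM v0 hA hT h3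
  have hc0 := RG1x_c_pos p
  have hB := RG1x_B_pos p
  have hN := p.hN
  have hX := RG1x_card (A := A) H hA
  set Ω := Fintype.piFinset (fun _ : Fin p.C => Psi p H v0) with hΩdef
  have hΩ : Ω.card = (Psi p H v0).card ^ p.C := by
    rw [hΩdef, Fintype.card_piFinset]
    simp
  rw [← hΩ]
  set b := p.q * p.d / (64 * p.N) + 1 with hbdef
  have hb : p.q * p.d < 64 * p.N * b := by
    rw [hbdef]
    exact Nat.lt_mul_div_succ _ (by omega)
  let bad1 : Finset (P × A) → (P × A) × Bool → (Fin p.C → P → V) → Prop := fun E' zi φ =>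
    Proper H zi.1 ∧ E' ⊆ XA A H ∧ Disjoint E' (Nb H v zi.2 zi.1) ∧
      b ≤ ((Finset.univ : Finset (Fin p.C)).filter
        (fun j => BadC p H v T (φ j) zi.2 zi.1 E')).card
  let bad : Finset (P × A) → (Fin p.C → P → V) → Prop := fun E' φ =>
    ∃ zi ∈ (Finset.univ : Finset ((P × A) × Bool)), bad1 E' zi φ
  have hsub : Ω.filter (fun φ => ¬ Q4 p H v T φ) ⊆
      Ω.filter (fun φ => ∃ S : Finset (P × A), S.Nonempty ∧ bad S φ) := by
    intro φ hφ
    obtain ⟨hφ1, hφ2⟩ := Finset.mem_filter.mp hφ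
    refine Finset.mem_filter.mpr ⟨hφ1, ?_⟩
    unfold Q4 at hφ2
    push Not at hφ2
    obtain ⟨z, i, E', hz, hE', hdis, hcard, hlt⟩ := hφ2
    have hlt2 : p.rho < 64 * ((((Finset.univ : Finset (Fin p.C)).filter
        (fun j => BadC p H v T (φ j) i z E')).card : ℕ) : ℝ) := by
      unfold BadC
      convert hlt
      rfl
    set m := ((Finset.univ : Finset (Fin p.C)).filter
        (fun j => BadC p H v T (φ j) i z E')).card with hm
    have hNr : (0 : ℝ) < p.N := by exact_mod_cast hN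
    have h1 : p.q * p.d < m * (64 * p.N) := by
      unfold Par.rho at hlt2
      rw [div_lt_iff₀ hNr] at hlt2
      have : ((p.q * p.d : ℕ) : ℝ) < ((m * (64 * p.N) : ℕ) : ℝ) := by
        push_cast
        linarith
      exact_mod_cast this
    have h2 : b ≤ m := by
      rw [hbdef]
      exact (Nat.div_lt_iff_lt_mul (by omega)).mpr h1
    refine ⟨E', ?_, (z, i), Finset.mem_univ _, hz, hE', hdis, h2⟩
    have hm0 : 0 < m := lt_of_lt_of_le (by rw [hbdef]; exact Nat.succ_pos _) h2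
    obtain ⟨j, hj⟩ := Finset.card_pos.mp hm0
    obtain ⟨S, hS1, hS2, -⟩ := (Finset.mem_filter.mp hj).2
    exact hS2.mono hS1
  refine le_trans (Nat.mul_le_mul_right _ (Finset.card_le_card hsub)) ?_
  refine ub_sets Ω p.Lam (4 * p.Lam) hX bad ?_
  intro E' hE'ne
  have hIcard : (Finset.univ : Finset ((P × A) × Bool)).card ≤ 2 ^ (p.Lam + 1) := by
    rw [Finset.card_univ, Fintype.card_prod, Fintype.card_bool, pow_succ]
    exact Nat.mul_le_mul_right _ hX
  refine ub Ω Finset.univ (bad1 E') (p.Lam + 1) ((p.Lam + 1) * E'.card + 4 * p.Lam) hIcard ?_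
  intro zi _
  by_cases hcond : Proper H zi.1 ∧ E' ⊆ XA A H ∧ Disjoint E' (Nb H v zi.2 zi.1)
  · obtain ⟨hz, hE', hdis⟩ := hcond
    -- the number k0
    have hM : 0 < 64 * p.c ^ 3 * p.B := Nat.mul_pos (Nat.mul_pos (by norm_num) (pow_pos hc0 3)) hB
    obtain ⟨k0, hk1, hk2, hk3⟩ : ∃ k0 : ℕ, 1 ≤ k0 ∧ E'.card ≤ 64 * p.c ^ 3 * p.B * k0 ∧
        64 * p.c ^ 3 * p.B * (k0 - 1) < E'.card := by
      have hn : 1 ≤ E'.card := Finset.card_pos.mpr hE'ne
      refine ⟨(E'.card - 1) / (64 * p.c ^ 3 * p.B) + 1, Nat.le_add_left _ _, ?_, ?_⟩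
      · have := Nat.lt_mul_div_succ (E'.card - 1) hM
        omega
      · rw [Nat.add_sub_cancel]
        have := Nat.mul_div_le (E'.card - 1) (64 * p.c ^ 3 * p.B)
        omega
    have h4 := hQB4 p P O A V H v T MM v0 hA hT h3 zi.1 zi.2 E' hz hE' hdis k0 hk1 (Or.inr hk3)
    have h5 := prod_bad (Psi p H v0) p.C b ((p.c ^ 8 * p.B ^ 2) ^ k0)
      (fun _ φ => BadC p H v T φ zi.2 zi.1 E') (fun _ => h4)
    have h6 := Q4f_num p E'.card k0 b hk1 hk2 hb
    have h7 : (Ω.filter (bad1 E' zi)).card * ((p.c ^ 8 * p.B ^ 2) ^ k0) ^ b ≤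
        p.C.choose b * Ω.card := by
      rw [hΩ]
      refine le_trans (Nat.mul_le_mul_right _ (Finset.card_le_card ?_)) h5
      intro φ hφ
      obtain ⟨hφ1, hφ2⟩ := Finset.mem_filter.mp hφ
      exact Finset.mem_filter.mpr ⟨hφ1, hφ2.2.2.2⟩
    have hKpos : 0 < ((p.c ^ 8 * p.B ^ 2) ^ k0) ^ b := by positivity
    apply Nat.le_of_mul_le_mul_right _ hKpos
    calc (Ω.filter (bad1 E' zi)).card *
          2 ^ ((p.Lam + 1) + ((p.Lam + 1) * E'.card + 4 * p.Lam)) *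
          ((p.c ^ 8 * p.B ^ 2) ^ k0) ^ b
        = ((Ω.filter (bad1 E' zi)).card * ((p.c ^ 8 * p.B ^ 2) ^ k0) ^ b) *
          2 ^ ((p.Lam + 1) + ((p.Lam + 1) * E'.card + 4 * p.Lam)) := by ring
      _ ≤ (p.C.choose b * Ω.card) *
          2 ^ ((p.Lam + 1) + ((p.Lam + 1) * E'.card + 4 * p.Lam)) := Nat.mul_le_mul_right _ h7
      _ = Ω.card * (p.C.choose b *
          2 ^ ((p.Lam + 1) + ((p.Lam + 1) * E'.card + 4 * p.Lam))) := by ring
      _ ≤ Ω.card * ((p.c ^ 8 * p.B ^ 2) ^ k0) ^ b := Nat.mul_le_mul_left _ h6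
  · have : Ω.filter (bad1 E' zi) = ∅ := by
      apply Finset.filter_eq_empty_iff.mpr
      intro φ _ hφ
      exact hcond ⟨hφ.1, hφ.2.1, hφ.2.2.1⟩
    rw [this]
    simp

end Pool.Agent.helper24.TG
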